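import Mathlib

/-!
# H15/R2P/Blk: the block of homogeneity (piece (P) of row R2, c = 2)

Pure lemma on finitely many densities on a mesh `0 .. S - 1`: inside a long mesh on which a bounded
density `nu` has average at least `eps`, there is a node `[a L^h, (a+1) L^h)` of the `L`-adic tree
with average of `nu` at least `eps/2`, on which all given nonnegative densities have average at most
a constant, and whose children all have the same averages up to `iota`.
-/

namespace Agent.H15.R2P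

open Finset

/-- average of `f` over the node `[a L^h, (a+1) L^h)`. -/
noncomputable def av (L : ℕ) (f : ℕ → ℝ) (h a : ℕ) : ℝ :=
  (∑ i ∈ range (L ^ h), f (a * L ^ h + i)) / (L : ℝ) ^ h

theorem sum_split (n m : ℕ) (g : ℕ → ℝ) :
    ∑ i ∈ range (n * m), g i = ∑ j ∈ range n, ∑ i ∈ range m, g (j * m + i) := by
  induction n with
  | zero => simp
  | succ n ih => rw [Nat.succ_mul, Finset.sum_range_add, ih, Finset.sum_range_succ]

theorem av_nonneg {L : ℕ} {f : ℕ → ℝ} (hf : ∀ s, 0 ≤ f s) (h a : ℕ) : 0 ≤ av L f h a := by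
  unfold av
  exact div_nonneg (Finset.sum_nonneg (fun i _ => hf _)) (by positivity)

theorem av_le {L : ℕ} (hL : 1 ≤ L) {f : ℕ → ℝ} {K : ℝ} (hf : ∀ s, f s ≤ K) (h a : ℕ) :
    av L f h a ≤ K := by
  unfold av
  have hp : (0 : ℝ) < (L : ℝ) ^ h := by
    have : (0 : ℝ) < L := by exact_mod_cast hL
    positivity
  rw [div_le_iff₀ hp]
  calc ∑ i ∈ range (L ^ h), f (a * L ^ h + i) ≤ ∑ _i ∈ range (L ^ h), K :=
        Finset.sum_le_sum (fun i _ => hf _)
    _ = K * (L : ℝ) ^ h := by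
        rw [Finset.sum_const, Finset.card_range, nsmul_eq_mul]
        push_cast
        ring

/-- the average over a node is the average of the averages over its children. -/
theorem av_succ {L : ℕ} (hL : 1 ≤ L) (f : ℕ → ℝ) (h a : ℕ) :
    av L f (h + 1) a = (∑ i ∈ range L, av L f h (a * L + i)) / L := by
  unfold av
  have hp : (L : ℝ) ≠ 0 := by
    have : (0 : ℝ) < L := by exact_mod_cast hL
    exact ne_of_gt this
  rw [pow_succ', sum_split, ← Finset.sum_div]
  rw [div_div]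
  rw [show (L : ℝ) ^ (h + 1) = (L : ℝ) ^ h * L from pow_succ _ _]
  congr 1
  apply Finset.sum_congr rfl
  intro j _
  apply Finset.sum_congr rfl
  intro i _
  congr 1
  ring

/-- mass at level `h` of the first `n` nodes. -/
theorem sum_av {L : ℕ} (hL : 1 ≤ L) (f : ℕ → ℝ) (h n : ℕ) :
    (L : ℝ) ^ h * ∑ a ∈ range n, av L f h a = ∑ s ∈ range (n * L ^ h), f s := by
  rw [sum_split, Finset.mul_sum]
  apply Finset.sum_congr rfl
  intro a _
  unfold av
  have hp : (L : ℝ) ^ h ≠ 0 := by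
    have : (0 : ℝ) < L := by exact_mod_cast hL
    positivity
  rw [mul_div_cancel₀ _ hp]

/-- the bounded concave potential. -/
noncomputable def ph (x : ℝ) : ℝ := x / (1 + x)

theorem ph_nonneg {x : ℝ} (hx : 0 ≤ x) : 0 ≤ ph x := by
  unfold ph
  positivity

theorem ph_le_one {x : ℝ} (hx : 0 ≤ x) : ph x ≤ 1 := by
  unfold ph
  rw [div_le_one (by linarith)]
  linarith

theorem ph_id {x y : ℝ} (hx : 0 ≤ x) (hy : 0 ≤ y) :
    ph x + (y - x) / (1 + x) ^ 2 - ph y = (y - x) ^ 2 / ((1 + x) ^ 2 * (1 + y)) := by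
  unfold ph
  have h1 : (1 + x) ≠ 0 := by linarith
  have h2 : (1 + y) ≠ 0 := by linarith
  field_simp
  ring

/-- the drop of the potential at one node, lower bound if one child deviates by `iota`. -/
theorem node_drop {L : ℕ} (hL : 1 ≤ L) {x : ℕ → ℝ} (hx : ∀ i, 0 ≤ x i) {X K iota : ℝ}
    (hX : X = (∑ i ∈ range L, x i) / L) (hK : X ≤ K) (hio : 0 ≤ iota)
    (hdev : ∃ i ∈ range L, iota ≤ |x i - X|) :
    iota ^ 2 / ((1 + K) ^ 2 * (1 + L * K)) ≤ L * ph X - ∑ i ∈ range L, ph (x i) := by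
  have hL0 : (0 : ℝ) < L := by exact_mod_cast hL
  have hX0 : 0 ≤ X := by
    rw [hX]
    exact div_nonneg (Finset.sum_nonneg (fun i _ => hx i)) hL0.le
  have hsum : ∑ i ∈ range L, x i = L * X := by
    rw [hX]
    field_simp
  have hz : ∑ i ∈ range L, (x i - X) / (1 + X) ^ 2 = 0 := by
    rw [← Finset.sum_div, Finset.sum_sub_distrib, hsum, Finset.sum_const, Finset.card_range,
      nsmul_eq_mul]
    simp
  have hid : L * ph X - ∑ i ∈ range L, ph (x i)
      = ∑ i ∈ range L, (x i - X) ^ 2 / ((1 + X) ^ 2 * (1 + x i)) := by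
    have h1 : ∑ i ∈ range L, (x i - X) ^ 2 / ((1 + X) ^ 2 * (1 + x i))
        = ∑ i ∈ range L, (ph X + (x i - X) / (1 + X) ^ 2 - ph (x i)) :=
      Finset.sum_congr rfl (fun i _ => (ph_id hX0 (hx i)).symm)
    rw [h1, Finset.sum_sub_distrib, Finset.sum_add_distrib, hz, Finset.sum_const,
      Finset.card_range, nsmul_eq_mul]
    ring
  rw [hid]
  obtain ⟨i, hi, hdi⟩ := hdev
  have hxi : x i ≤ L * K := by
    have h1 : x i ≤ ∑ i ∈ range L, x i := Finset.single_le_sum (fun j _ => hx j) hi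
    rw [hsum] at h1
    exact h1.trans (mul_le_mul_of_nonneg_left hK hL0.le)
  have hterm : iota ^ 2 / ((1 + K) ^ 2 * (1 + L * K))
      ≤ (x i - X) ^ 2 / ((1 + X) ^ 2 * (1 + x i)) := by
    have hxi0 := hx i
    have hsq : iota ^ 2 ≤ (x i - X) ^ 2 := by
      rw [← sq_abs (x i - X)]
      exact pow_le_pow_left₀ hio hdi 2
    have hden : (1 + X) ^ 2 * (1 + x i) ≤ (1 + K) ^ 2 * (1 + L * K) := by
      apply mul_le_mul
      · exact pow_le_pow_left₀ (by linarith) (by linarith) 2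
      · linarith
      · linarith
      · positivity
    have hdp : 0 < (1 + X) ^ 2 * (1 + x i) := by positivity
    exact div_le_div₀ (sq_nonneg _) hsq hdp hden
  refine hterm.trans ?_
  have := Finset.single_le_sum (f := fun i => (x i - X) ^ 2 / ((1 + X) ^ 2 * (1 + x i)))
    (s := range L) (fun j _ => by
      have := hx j
      positivity) hi
  exact this

theorem node_mono {L : ℕ} (hL : 1 ≤ L) {x : ℕ → ℝ} (hx : ∀ i, 0 ≤ x i) {X : ℝ}
    (hX : X = (∑ i ∈ range L, x i) / L) :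
    0 ≤ L * ph X - ∑ i ∈ range L, ph (x i) := by
  have hL0 : (0 : ℝ) < L := by exact_mod_cast hL
  have hX0 : 0 ≤ X := by
    rw [hX]
    exact div_nonneg (Finset.sum_nonneg (fun i _ => hx i)) hL0.le
  have h := node_drop hL hx hX le_rfl (iota := 0) le_rfl
    ⟨0, Finset.mem_range.2 (by omega), abs_nonneg _⟩
  have h0 : (0 : ℝ) ≤ 0 ^ 2 / ((1 + X) ^ 2 * (1 + L * X)) := by positivity
  exact h0.trans h

/-- a node is bad if its average is at most `K` and one child deviates by `iota`. -/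
def Bad (L : ℕ) (f : ℕ → ℝ) (K iota : ℝ) (h a : ℕ) : Prop :=
  av L f (h + 1) a ≤ K ∧ ∃ i ∈ range L, iota ≤ |av L f h (a * L + i) - av L f (h + 1) a|

open Classical in
/-- one level: the drop of the weighted potential controls the mass of the bad nodes. -/
theorem level_drop {L : ℕ} (hL : 1 ≤ L) {f : ℕ → ℝ} (hf : ∀ s, 0 ≤ f s) {K iota : ℝ}
    (hK : 0 ≤ K) (hio : 0 ≤ iota) (h n : ℕ) :
    iota ^ 2 / (L * ((1 + K) ^ 2 * (1 + L * K)))
        * ((L : ℝ) ^ (h + 1) * ∑ a ∈ range n, (if Bad L f K iota h a then (1 : ℝ) else 0))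
      ≤ (L : ℝ) ^ (h + 1) * ∑ a ∈ range n, ph (av L f (h + 1) a)
        - (L : ℝ) ^ h * ∑ a ∈ range (n * L), ph (av L f h a) := by
  have hL0 : (0 : ℝ) < L := by exact_mod_cast hL
  have hden : (0 : ℝ) < (1 + K) ^ 2 * (1 + L * K) := by positivity
  have key : ∀ a ∈ range n, iota ^ 2 / ((1 + K) ^ 2 * (1 + L * K))
        * (if Bad L f K iota h a then (1 : ℝ) else 0)
      ≤ L * ph (av L f (h + 1) a) - ∑ i ∈ range L, ph (av L f h (a * L + i)) := by
    intro a _
    by_cases hb : Bad L f K iota h a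
    · rw [if_pos hb, mul_one]
      exact node_drop hL (x := fun i => av L f h (a * L + i)) (fun i => av_nonneg hf _ _)
        (av_succ hL f h a) hb.1 hio hb.2
    · rw [if_neg hb, mul_zero]
      exact node_mono hL (x := fun i => av L f h (a * L + i)) (fun i => av_nonneg hf _ _)
        (av_succ hL f h a)
  have hs := Finset.sum_le_sum key
  rw [← Finset.mul_sum, Finset.sum_sub_distrib, ← Finset.mul_sum,
    ← sum_split n L (fun s => ph (av L f h s))] at hs
  have hm := mul_le_mul_of_nonneg_left hs (show (0 : ℝ) ≤ (L : ℝ) ^ h by positivity)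
  calc iota ^ 2 / (L * ((1 + K) ^ 2 * (1 + L * K)))
        * ((L : ℝ) ^ (h + 1) * ∑ a ∈ range n, (if Bad L f K iota h a then (1 : ℝ) else 0))
      = (L : ℝ) ^ h * (iota ^ 2 / ((1 + K) ^ 2 * (1 + L * K))
        * ∑ a ∈ range n, (if Bad L f K iota h a then (1 : ℝ) else 0)) := by
        rw [pow_succ]
        field_simp
        ring
    _ ≤ _ := hm
    _ = _ := by
        rw [pow_succ]
        ring

open Classical in
/-- all levels: the masses of the bad nodes are summable over the levels. -/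
theorem bad_sum {L : ℕ} (hL : 1 ≤ L) {f : ℕ → ℝ} (hf : ∀ s, 0 ≤ f s) {K iota : ℝ}
    (hK : 0 ≤ K) (hio : 0 ≤ iota) (A h0 H : ℕ) :
    iota ^ 2 / (L * ((1 + K) ^ 2 * (1 + L * K)))
        * ∑ k ∈ range H, ((L : ℝ) ^ (h0 + k + 1)
          * ∑ a ∈ range (A * L ^ (H - (k + 1))), (if Bad L f K iota (h0 + k) a then (1 : ℝ) else 0))
      ≤ A * (L : ℝ) ^ (h0 + H) := by
  have hL0 : (0 : ℝ) < L := by exact_mod_cast hL
  obtain ⟨Ps, hPs⟩ : ∃ Ps : ℕ → ℝ, ∀ k, Ps k = (L : ℝ) ^ (h0 + k)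
      * ∑ a ∈ range (A * L ^ (H - k)), ph (av L f (h0 + k) a) := ⟨_, fun _ => rfl⟩
  have hstep : ∀ k ∈ range H, iota ^ 2 / (L * ((1 + K) ^ 2 * (1 + L * K)))
        * ((L : ℝ) ^ (h0 + k + 1)
          * ∑ a ∈ range (A * L ^ (H - (k + 1))), (if Bad L f K iota (h0 + k) a then (1 : ℝ) else 0))
      ≤ Ps (k + 1) - Ps k := by
    intro k hk
    have hkH : k < H := Finset.mem_range.1 hk
    have h1 := level_drop hL hf hK hio (h0 + k) (A * L ^ (H - (k + 1)))
    have h2 : A * L ^ (H - (k + 1)) * L = A * L ^ (H - k) := by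
      rw [mul_assoc, ← pow_succ]
      congr 2
      omega
    rw [h2] at h1
    rw [hPs, hPs]
    exact h1
  have hs := Finset.sum_le_sum hstep
  rw [← Finset.mul_sum, Finset.sum_range_sub] at hs
  have h0' : 0 ≤ Ps 0 := by
    rw [hPs]
    exact mul_nonneg (by positivity)
      (Finset.sum_nonneg (fun a _ => ph_nonneg (av_nonneg hf _ _)))
  have hH' : Ps H ≤ A * (L : ℝ) ^ (h0 + H) := by
    rw [hPs]
    have : ∑ a ∈ range (A * L ^ (H - H)), ph (av L f (h0 + H) a) ≤ A := by
      calc ∑ a ∈ range (A * L ^ (H - H)), ph (av L f (h0 + H) a)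
          ≤ ∑ _a ∈ range (A * L ^ (H - H)), (1 : ℝ) :=
            Finset.sum_le_sum (fun a _ => ph_le_one (av_nonneg hf _ _))
        _ = A := by simp
    calc (L : ℝ) ^ (h0 + H) * ∑ a ∈ range (A * L ^ (H - H)), ph (av L f (h0 + H) a)
        ≤ (L : ℝ) ^ (h0 + H) * A := mul_le_mul_of_nonneg_left this (by positivity)
      _ = A * (L : ℝ) ^ (h0 + H) := mul_comm _ _
  linarith

open Classical in
/-- **The block of homogeneity**, tree form. -/
theorem blk_tree {ι : Type*} [Fintype ι] {L : ℕ} (hL : 1 ≤ L) {eps iota K' R : ℝ} (heps : 0 < eps)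
    (hiota : 0 < iota) (hK' : 0 ≤ K') (hR : 0 ≤ R) (h0 : ℕ) :
    ∃ H : ℕ, ∀ A : ℕ, 1 ≤ A → ∀ (nu : ℕ → ℝ) (f : ι → ℕ → ℝ),
      (∀ s, 0 ≤ nu s) → (∀ s, nu s ≤ K') → (∀ j s, 0 ≤ f j s) →
      eps * (A * (L : ℝ) ^ (h0 + H)) ≤ ∑ s ∈ range (A * L ^ (h0 + H)), nu s →
      (∀ j, ∑ s ∈ range (A * L ^ (h0 + H)), f j s ≤ R * (A * (L : ℝ) ^ (h0 + H))) →
      ∃ k < H, ∃ a < A * L ^ (H - (k + 1)),
        eps / 2 ≤ av L nu (h0 + k + 1) a ∧
        ∀ j, av L (f j) (h0 + k + 1) a ≤ 8 * K' * (Fintype.card ι : ℝ) * R / eps + 1 ∧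
          ∀ i < L, |av L (f j) (h0 + k) (a * L + i) - av L (f j) (h0 + k + 1) a| < iota := by
  have hL0 : (0 : ℝ) < L := by exact_mod_cast hL
  obtain ⟨r, hr⟩ : ∃ r : ℝ, r = (Fintype.card ι : ℝ) := ⟨_, rfl⟩
  have hr0 : 0 ≤ r := by rw [hr]; positivity
  obtain ⟨K'', hK2⟩ : ∃ K'' : ℝ, K'' = 8 * K' * r * R / eps + 1 := ⟨_, rfl⟩
  have hK20 : 0 < K'' := by rw [hK2]; positivity
  obtain ⟨c, hc⟩ : ∃ c : ℝ, c = iota ^ 2 / (L * ((1 + K'') ^ 2 * (1 + L * K''))) := ⟨_, rfl⟩
  have hc0 : 0 < c := by rw [hc]; positivity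
  obtain ⟨H, hH⟩ := exists_nat_gt (8 * K' * r / (c * eps))
  rw [← hr, ← hK2]
  refine ⟨H, ?_⟩
  intro A hA nu f hnu0 hnuK hf0 hnu hf
  have hHpos : (0 : ℝ) < H := lt_of_le_of_lt (by positivity) hH
  have hA0 : (0 : ℝ) < A := by exact_mod_cast hA
  obtain ⟨N, hN⟩ : ∃ N : ℝ, N = A * (L : ℝ) ^ (h0 + H) := ⟨_, rfl⟩
  have hN0 : 0 < N := by rw [hN]; positivity
  rw [← hN] at hnu
  -- mass of the bad nodes at a level
  obtain ⟨Bm, hBm⟩ : ∃ Bm : ι → ℕ → ℝ, ∀ j k, Bm j k = (L : ℝ) ^ (h0 + k + 1)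
      * ∑ a ∈ range (A * L ^ (H - (k + 1))),
        (if Bad L (f j) K'' iota (h0 + k) a then (1 : ℝ) else 0) := ⟨_, fun _ _ => rfl⟩
  have hBm0 : ∀ j k, 0 ≤ Bm j k := by
    intro j k
    rw [hBm]
    refine mul_nonneg (by positivity) (Finset.sum_nonneg (fun a _ => ?_))
    split_ifs <;> norm_num
  have hBs : ∀ j, ∑ k ∈ range H, Bm j k ≤ N / c := by
    intro j
    rw [le_div_iff₀ hc0]
    have h1 := bad_sum hL (hf0 j) hK20.le hiota.le A h0 H
    rw [← hc, ← hN] at h1
    calc (∑ k ∈ range H, Bm j k) * c = c * ∑ k ∈ range H, Bm j k := mul_comm _ _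
      _ ≤ N := by
        refine le_trans (le_of_eq ?_) h1
        congr 1
        exact Finset.sum_congr rfl (fun k _ => hBm j k)
  -- a level where all bad masses are small
  have hlev : ∃ k ∈ range H, ∑ j, Bm j k ≤ (r * N / c) / H := by
    by_contra hcon
    push Not at hcon
    have hne : (range H).Nonempty := by
      rw [Finset.nonempty_range_iff]
      intro h0
      rw [h0] at hHpos
      norm_num at hHpos
    have h1 : ∑ _k ∈ range H, (r * N / c) / (H : ℝ) < ∑ k ∈ range H, ∑ j, Bm j k :=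
      Finset.sum_lt_sum_of_nonempty hne hcon
    rw [Finset.sum_const, Finset.card_range, nsmul_eq_mul, mul_div_cancel₀ _ (ne_of_gt hHpos),
      Finset.sum_comm] at h1
    have h2 : ∑ j, ∑ k ∈ range H, Bm j k ≤ ∑ _j : ι, N / c := Finset.sum_le_sum (fun j _ => hBs j)
    rw [Finset.sum_const, Finset.card_univ, nsmul_eq_mul, ← hr] at h2
    have h3 : r * (N / c) = r * N / c := by ring
    linarith
  obtain ⟨k, hk, hkB⟩ := hlev
  have hkH : k < H := Finset.mem_range.1 hk
  refine ⟨k, hkH, ?_⟩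
  by_contra hcon
  push Not at hcon
  -- number of nodes at this level
  obtain ⟨n, hn⟩ : ∃ n : ℕ, n = A * L ^ (H - (k + 1)) := ⟨_, rfl⟩
  rw [← hn] at hcon
  have hnN : n * L ^ (h0 + k + 1) = A * L ^ (h0 + H) := by
    rw [hn, mul_assoc, ← pow_add]
    congr 2
    omega
  have hnN' : (n : ℝ) * (L : ℝ) ^ (h0 + k + 1) = N := by
    rw [hN]
    exact_mod_cast hnN
  have hpt : ∀ a ∈ range n, av L nu (h0 + k + 1) a ≤ eps / 2
      + K' * ∑ j, (av L (f j) (h0 + k + 1) a / K''
        + (if Bad L (f j) K'' iota (h0 + k) a then (1 : ℝ) else 0)) := by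
    intro a ha
    have haA := Finset.mem_range.1 ha
    have hterm : ∀ j, 0 ≤ (av L (f j) (h0 + k + 1) a / K''
        + (if Bad L (f j) K'' iota (h0 + k) a then (1 : ℝ) else 0)) := by
      intro j
      have h1 : 0 ≤ av L (f j) (h0 + k + 1) a / K'' :=
        div_nonneg (av_nonneg (hf0 j) _ _) hK20.le
      have h2 : (0 : ℝ) ≤ (if Bad L (f j) K'' iota (h0 + k) a then (1 : ℝ) else 0) := by
        split_ifs <;> norm_num
      linarith
    by_cases hlt : av L nu (h0 + k + 1) a < eps / 2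
    · have h1 : 0 ≤ K' * ∑ j, (av L (f j) (h0 + k + 1) a / K''
        + (if Bad L (f j) K'' iota (h0 + k) a then (1 : ℝ) else 0)) :=
        mul_nonneg hK' (Finset.sum_nonneg (fun j _ => hterm j))
      linarith
    · obtain ⟨j, hj⟩ := hcon a haA (not_lt.1 hlt)
      have hge : (1 : ℝ) ≤ (av L (f j) (h0 + k + 1) a / K''
        + (if Bad L (f j) K'' iota (h0 + k) a then (1 : ℝ) else 0)) := by
        by_cases hle : av L (f j) (h0 + k + 1) a ≤ K''
        · obtain ⟨i, hi, hdev⟩ := hj hle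
          have hbad : Bad L (f j) K'' iota (h0 + k) a := ⟨hle, i, Finset.mem_range.2 hi, hdev⟩
          rw [if_pos hbad]
          have h1 : 0 ≤ av L (f j) (h0 + k + 1) a / K'' :=
            div_nonneg (av_nonneg (hf0 j) _ _) hK20.le
          linarith
        · have h1 : 1 ≤ av L (f j) (h0 + k + 1) a / K'' := by
            rw [le_div_iff₀ hK20]
            linarith [not_le.1 hle]
          have h2 : (0 : ℝ) ≤ (if Bad L (f j) K'' iota (h0 + k) a then (1 : ℝ) else 0) := by
            split_ifs <;> norm_num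
          linarith
      have hsum : (1 : ℝ) ≤ ∑ j, (av L (f j) (h0 + k + 1) a / K''
        + (if Bad L (f j) K'' iota (h0 + k) a then (1 : ℝ) else 0)) :=
        hge.trans (Finset.single_le_sum (f := fun j => (av L (f j) (h0 + k + 1) a / K''
        + (if Bad L (f j) K'' iota (h0 + k) a then (1 : ℝ) else 0)))
          (fun j _ => hterm j) (Finset.mem_univ j))
      have h3 : K' ≤ K' * ∑ j, (av L (f j) (h0 + k + 1) a / K''
        + (if Bad L (f j) K'' iota (h0 + k) a then (1 : ℝ) else 0)) := by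
        have := mul_le_mul_of_nonneg_left hsum hK'
        linarith
      have h4 := av_le hL hnuK (h0 + k + 1) a
      linarith
  have hsumpt := Finset.sum_le_sum hpt
  have hLp : (0 : ℝ) < (L : ℝ) ^ (h0 + k + 1) := by positivity
  have h5 := mul_le_mul_of_nonneg_left hsumpt hLp.le
  rw [sum_av hL, hnN] at h5
  rw [Finset.sum_add_distrib, ← Finset.mul_sum, Finset.sum_comm, Finset.sum_const,
    Finset.card_range, nsmul_eq_mul] at h5
  have h6 : (L : ℝ) ^ (h0 + k + 1) * ∑ j : ι, ∑ a ∈ range n, (av L (f j) (h0 + k + 1) a / K''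
        + (if Bad L (f j) K'' iota (h0 + k) a then (1 : ℝ) else 0))
      ≤ r * R * N / K'' + (r * N / c) / H := by
    have h7 : ∀ j : ι, (L : ℝ) ^ (h0 + k + 1) * ∑ a ∈ range n, (av L (f j) (h0 + k + 1) a / K''
        + (if Bad L (f j) K'' iota (h0 + k) a then (1 : ℝ) else 0))
        ≤ R * N / K'' + Bm j k := by
      intro j
      rw [Finset.sum_add_distrib, mul_add, ← Finset.sum_div, ← mul_div_assoc, sum_av hL, hnN,
        hBm, hn]
      have h8 := hf j
      rw [← hN] at h8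
      have h9 : (∑ s ∈ range (A * L ^ (h0 + H)), f j s) / K'' ≤ R * N / K'' :=
        div_le_div_of_nonneg_right h8 hK20.le
      linarith
    rw [Finset.mul_sum]
    calc ∑ j : ι, (L : ℝ) ^ (h0 + k + 1) * ∑ a ∈ range n, (av L (f j) (h0 + k + 1) a / K''
        + (if Bad L (f j) K'' iota (h0 + k) a then (1 : ℝ) else 0))
        ≤ ∑ j : ι, (R * N / K'' + Bm j k) := Finset.sum_le_sum (fun j _ => h7 j)
      _ = r * (R * N / K'') + ∑ j, Bm j k := by
          rw [Finset.sum_add_distrib, Finset.sum_const, Finset.card_univ, nsmul_eq_mul, ← hr]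
      _ ≤ r * R * N / K'' + (r * N / c) / H := by
          have : r * (R * N / K'') = r * R * N / K'' := by ring
          linarith
  have h10 : (L : ℝ) ^ (h0 + k + 1) * (n * (eps / 2) + K' * ∑ j : ι, ∑ a ∈ range n,
        (av L (f j) (h0 + k + 1) a / K''
        + (if Bad L (f j) K'' iota (h0 + k) a then (1 : ℝ) else 0)))
      ≤ N * (eps / 2) + K' * (r * R * N / K'' + (r * N / c) / H) := by
    have := mul_le_mul_of_nonneg_left h6 hK'
    calc _ = (n * (L : ℝ) ^ (h0 + k + 1)) * (eps / 2)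
        + K' * ((L : ℝ) ^ (h0 + k + 1) * ∑ j : ι, ∑ a ∈ range n,
        (av L (f j) (h0 + k + 1) a / K''
        + (if Bad L (f j) K'' iota (h0 + k) a then (1 : ℝ) else 0))) := by ring
      _ ≤ _ := by
        rw [hnN']
        linarith
  have h11 : K' * (r * R * N / K'') ≤ eps / 8 * N := by
    have h12 : 8 * K' * r * R / eps ≤ K'' := by rw [hK2]; linarith
    have h13 : 8 * K' * r * R ≤ K'' * eps := by
      rw [div_le_iff₀ heps] at h12
      exact h12
    have h14 : K' * (r * R * N / K'') = (8 * K' * r * R) * N / (8 * K'') := by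
      field_simp
    rw [h14, div_le_iff₀ (by positivity)]
    have h15 := mul_le_mul_of_nonneg_right h13 hN0.le
    linarith
  have h16 : K' * ((r * N / c) / H) ≤ eps / 8 * N := by
    have h17 : 8 * K' * r ≤ H * (c * eps) := by
      have := hH.le
      rwa [div_le_iff₀ (by positivity)] at this
    have h18 : K' * ((r * N / c) / H) = (8 * K' * r) * N / (8 * c * H) := by
      field_simp
    rw [h18, div_le_iff₀ (by positivity)]
    have h19 := mul_le_mul_of_nonneg_right h17 hN0.le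
    linarith
  have h20 : K' * (r * R * N / K'' + (r * N / c) / H)
      = K' * (r * R * N / K'') + K' * ((r * N / c) / H) := by ring
  have h21 : 0 < eps * N := mul_pos heps hN0
  linarith

end Agent.H15.R2P
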