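import Pool.Agent.H15.R2P.Blk

/-!
# H15/R2P/Sel: the selection lemma (P) of row R2 (c = 2), in the letters of K_R2 sec. 3

`g` = numbers of the labels, `pv` = profile of the falling V-coordinate, `d` = deficit at the row
`g s`, all in units of the mesh `X`.  If the deficit increases by `eps S` on `0 .. S`, the jumps
(steps at least `K`) carrying only a small part of it, there is a long block on which `g`, `pv` are
linear up to `iota M` and `d` increases with density at least `eps/16` on every sub-block of length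
at least `kap M`.
-/

namespace Agent.H15.R2P

open Finset

/-- prefix sums over whole children. -/
theorem pre_child {L : ℕ} (hL : 1 ≤ L) (f : ℕ → ℝ) (h a i : ℕ) :
    ∑ t ∈ range (i * L ^ h), f (a * L ^ (h + 1) + t)
      = (L : ℝ) ^ h * ∑ j ∈ range i, av L f h (a * L + j) := by
  rw [sum_split, Finset.mul_sum]
  apply Finset.sum_congr rfl
  intro j _
  unfold av
  have hp : (L : ℝ) ^ h ≠ 0 := by
    have : (0 : ℝ) < L := by exact_mod_cast hL
    positivity
  rw [mul_div_cancel₀ _ hp]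
  apply Finset.sum_congr rfl
  intro t _
  congr 1
  ring

theorem pre_mono {f : ℕ → ℝ} (hf : ∀ s, 0 ≤ f s) (s0 : ℕ) {t t' : ℕ} (h : t ≤ t') :
    ∑ u ∈ range t, f (s0 + u) ≤ ∑ u ∈ range t', f (s0 + u) :=
  Finset.sum_le_sum_of_subset_of_nonneg (Finset.range_mono h) (fun _ _ _ => hf _)

/-- near linearity of the prefix sums on a node with equal children. -/
theorem near_lin {L : ℕ} (hL : 1 ≤ L) {f : ℕ → ℝ} (hf : ∀ s, 0 ≤ f s) {h a : ℕ} {iota Kg : ℝ}
    (hX : av L f (h + 1) a ≤ Kg) (hio : 0 ≤ iota)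
    (hch : ∀ i < L, |av L f h (a * L + i) - av L f (h + 1) a| < iota) {t : ℕ}
    (ht : t ≤ L ^ (h + 1)) :
    |∑ u ∈ range t, f (a * L ^ (h + 1) + u) - av L f (h + 1) a * t|
      ≤ iota * (L : ℝ) ^ (h + 1) + Kg * (L : ℝ) ^ h := by
  have hL0 : (0 : ℝ) < L := by exact_mod_cast hL
  obtain ⟨X, hXd⟩ : ∃ X : ℝ, X = av L f (h + 1) a := ⟨_, rfl⟩
  have hX0 : 0 ≤ X := by rw [hXd]; exact av_nonneg hf _ _
  rw [← hXd] at hX hch ⊢
  obtain ⟨l, hl⟩ : ∃ l : ℕ, l = L ^ h := ⟨_, rfl⟩
  have hl0 : 0 < l := by rw [hl]; exact Nat.pow_pos (by omega)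
  have hlR : (0 : ℝ) < l := by exact_mod_cast hl0
  have hlr : (L : ℝ) ^ h = l := by rw [hl]; push_cast; rfl
  have hM : (L : ℝ) ^ (h + 1) = L * l := by rw [pow_succ', hlr]
  have hMn : L ^ (h + 1) = L * l := by rw [pow_succ', hl]
  rw [hMn] at ht
  obtain ⟨P, hP⟩ : ∃ P : ℕ → ℝ, ∀ t, P t = ∑ u ∈ range t, f (a * L ^ (h + 1) + u) :=
    ⟨_, fun _ => rfl⟩
  rw [← hP, hM, hlr]
  have hPm : ∀ t t', t ≤ t' → P t ≤ P t' := by
    intro t t' h
    rw [hP, hP]
    exact pre_mono hf _ h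
  have hPi : ∀ i, i ≤ L → |P (i * l) - X * (i * l : ℕ)| ≤ iota * (i * l : ℕ) := by
    intro i hi
    rw [hP, hl, pre_child hL, hlr, ← hl]
    have h1 : |∑ j ∈ range i, av L f h (a * L + j) - X * i| ≤ iota * i := by
      have h2 : ∑ j ∈ range i, av L f h (a * L + j) - X * i
          = ∑ j ∈ range i, (av L f h (a * L + j) - X) := by
        rw [Finset.sum_sub_distrib, Finset.sum_const, Finset.card_range, nsmul_eq_mul]
        ring
      rw [h2]
      calc |∑ j ∈ range i, (av L f h (a * L + j) - X)|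
          ≤ ∑ j ∈ range i, |av L f h (a * L + j) - X| := Finset.abs_sum_le_sum_abs _ _
        _ ≤ ∑ _j ∈ range i, iota := Finset.sum_le_sum (fun j hj =>
            (hch j (lt_of_lt_of_le (Finset.mem_range.1 hj) hi)).le)
        _ = iota * i := by
            rw [Finset.sum_const, Finset.card_range, nsmul_eq_mul]
            ring
    have h3 : (l : ℝ) * ∑ j ∈ range i, av L f h (a * L + j) - X * ((i * l : ℕ) : ℝ)
        = l * (∑ j ∈ range i, av L f h (a * L + j) - X * i) := by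
      push_cast
      ring
    rw [h3, abs_mul, abs_of_pos hlR]
    calc (l : ℝ) * |∑ j ∈ range i, av L f h (a * L + j) - X * i| ≤ l * (iota * i) :=
          mul_le_mul_of_nonneg_left h1 hlR.le
      _ = iota * ((i * l : ℕ) : ℝ) := by
          push_cast
          ring
  obtain ⟨i, hi⟩ : ∃ i : ℕ, i = t / l := ⟨_, rfl⟩
  have hit : i * l ≤ t := by rw [hi]; exact Nat.div_mul_le_self t l
  have hti : t < (i + 1) * l := by
    rw [hi]
    have := Nat.lt_div_mul_add (a := t) hl0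
    rw [Nat.succ_mul]
    omega
  have hiL : i ≤ L := by
    rw [hi]
    calc t / l ≤ L * l / l := Nat.div_le_div_right ht
      _ = L := Nat.mul_div_cancel _ hl0
  have hitR : ((i * l : ℕ) : ℝ) ≤ t := by exact_mod_cast hit
  have htR : (t : ℝ) ≤ L * l := by exact_mod_cast ht
  have htiR : (t : ℝ) ≤ ((i * l : ℕ) : ℝ) + l := by
    have : t ≤ i * l + l := by
      rw [Nat.succ_mul] at hti
      omega
    exact_mod_cast this
  have hXK : X * l ≤ Kg * l := mul_le_mul_of_nonneg_right hX hlR.le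
  have hio1 : iota * ((i * l : ℕ) : ℝ) ≤ iota * (L * l) :=
    mul_le_mul_of_nonneg_left (hitR.trans htR) hio
  rw [abs_le]
  constructor
  · have h1 := (abs_le.1 (hPi i hiL)).1
    have h2 := hPm _ _ hit
    have h3 : X * t ≤ X * ((i * l : ℕ) : ℝ) + X * l := by
      have := mul_le_mul_of_nonneg_left htiR hX0
      rw [mul_add] at this
      exact this
    linarith
  · by_cases hcase : i < L
    · have h1 := (abs_le.1 (hPi (i + 1) hcase)).2
      have h2 := hPm _ _ hti.le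
      have h4 : (((i + 1) * l : ℕ) : ℝ) = ((i * l : ℕ) : ℝ) + l := by
        push_cast
        ring
      rw [h4] at h1
      have h3 : X * ((i * l : ℕ) : ℝ) ≤ X * t := mul_le_mul_of_nonneg_left hitR hX0
      have h5 : ((i * l : ℕ) : ℝ) + l ≤ L * l := by
        have : (i + 1) * l ≤ L * l := Nat.mul_le_mul_right l hcase
        have h6 : (((i + 1) * l : ℕ) : ℝ) ≤ ((L * l : ℕ) : ℝ) := by exact_mod_cast this
        rw [h4] at h6
        push_cast at h6 ⊢
        exact h6
      have h7 : iota * (((i * l : ℕ) : ℝ) + l) ≤ iota * (L * l) :=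
        mul_le_mul_of_nonneg_left h5 hio
      have h8 : X * (((i * l : ℕ) : ℝ) + l) = X * ((i * l : ℕ) : ℝ) + X * l := mul_add _ _ _
      rw [h8] at h1
      linarith
    · have hiL' : i = L := le_antisymm hiL (not_lt.1 hcase)
      have ht' : t = i * l := by
        apply le_antisymm _ hit
        rw [hiL']
        exact ht
      have h1 := (abs_le.1 (hPi i hiL)).2
      rw [ht']
      have h9 : 0 ≤ Kg * l := mul_nonneg (hX0.trans hX) hlR.le
      linarith

/-- density from below on long sub-blocks of a node all whose children have average at least `b`. -/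
theorem dens_sub {L : ℕ} (hL : 1 ≤ L) {f : ℕ → ℝ} (hf : ∀ s, 0 ≤ f s) {h a : ℕ} {b : ℝ}
    (hb : 0 ≤ b) (hch : ∀ i < L, b ≤ av L f h (a * L + i)) {s s' : ℕ} (hss : s ≤ s')
    (hs' : s' ≤ L ^ (h + 1)) (hlong : 4 * L ^ h ≤ s' - s) :
    b / 2 * ((s' : ℝ) - s) ≤ ∑ u ∈ range s', f (a * L ^ (h + 1) + u)
      - ∑ u ∈ range s, f (a * L ^ (h + 1) + u) := by
  have hL0 : (0 : ℝ) < L := by exact_mod_cast hL
  obtain ⟨l, hl⟩ : ∃ l : ℕ, l = L ^ h := ⟨_, rfl⟩
  have hl0 : 0 < l := by rw [hl]; exact Nat.pow_pos (by omega)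
  have hlR : (0 : ℝ) < l := by exact_mod_cast hl0
  have hlr : (L : ℝ) ^ h = l := by rw [hl]; push_cast; rfl
  have hMn : L ^ (h + 1) = L * l := by rw [pow_succ', hl]
  rw [hMn] at hs'
  rw [← hl] at hlong
  obtain ⟨P, hP⟩ : ∃ P : ℕ → ℝ, ∀ t, P t = ∑ u ∈ range t, f (a * L ^ (h + 1) + u) :=
    ⟨_, fun _ => rfl⟩
  rw [← hP, ← hP]
  have hPm : ∀ t t', t ≤ t' → P t ≤ P t' := by
    intro t t' h
    rw [hP, hP]
    exact pre_mono hf _ h
  have hPi : ∀ i, P (i * l) = l * ∑ j ∈ range i, av L f h (a * L + j) := by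
    intro i
    rw [hP, hl, pre_child hL, hlr, ← hl]
  -- first and last child boundary inside
  obtain ⟨i1, hi1⟩ : ∃ i : ℕ, i = s / l + 1 := ⟨_, rfl⟩
  obtain ⟨i2, hi2⟩ : ∃ i : ℕ, i = s' / l := ⟨_, rfl⟩
  have h1 : s ≤ i1 * l := by
    rw [hi1, Nat.succ_mul]
    have := Nat.lt_div_mul_add (a := s) hl0
    omega
  have h1' : i1 * l ≤ s + l := by
    rw [hi1, Nat.succ_mul]
    have := Nat.div_mul_le_self s l
    omega
  have h2 : i2 * l ≤ s' := by rw [hi2]; exact Nat.div_mul_le_self s' l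
  have h2' : s' ≤ i2 * l + l := by
    rw [hi2]
    have := Nat.lt_div_mul_add (a := s') hl0
    omega
  have h12 : i1 * l ≤ i2 * l := by omega
  have hi12 : i1 ≤ i2 := Nat.le_of_mul_le_mul_right h12 hl0
  have hi2L : i2 ≤ L := by
    rw [hi2]
    calc s' / l ≤ L * l / l := Nat.div_le_div_right hs'
      _ = L := Nat.mul_div_cancel _ hl0
  have h3 : P (i2 * l) - P (i1 * l) ≥ b * (((i2 * l : ℕ) : ℝ) - ((i1 * l : ℕ) : ℝ)) := by
    rw [hPi, hPi, ← mul_sub]
    have h4 : ∑ j ∈ range i2, av L f h (a * L + j) - ∑ j ∈ range i1, av L f h (a * L + j)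
        = ∑ j ∈ Finset.Ico i1 i2, av L f h (a * L + j) := by
      rw [Finset.sum_Ico_eq_sub _ hi12]
    rw [h4]
    have h5 : ((i2 : ℝ) - i1) * b ≤ ∑ j ∈ Finset.Ico i1 i2, av L f h (a * L + j) := by
      have h6 : ∑ _j ∈ Finset.Ico i1 i2, b ≤ ∑ j ∈ Finset.Ico i1 i2, av L f h (a * L + j) :=
        Finset.sum_le_sum (fun j hj => hch j (lt_of_lt_of_le (Finset.mem_Ico.1 hj).2 hi2L))
      rw [Finset.sum_const, Nat.card_Ico, nsmul_eq_mul, Nat.cast_sub hi12] at h6
      exact h6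
    have h7 := mul_le_mul_of_nonneg_left h5 hlR.le
    push_cast
    calc b * ((i2 : ℝ) * l - i1 * l) = l * (((i2 : ℝ) - i1) * b) := by ring
      _ ≤ _ := h7
  have h8 := hPm _ _ h1
  have h9 := hPm _ _ h2
  have h10 : ((i1 * l : ℕ) : ℝ) ≤ s + l := by exact_mod_cast h1'
  have h11 : (s' : ℝ) ≤ ((i2 * l : ℕ) : ℝ) + l := by exact_mod_cast h2'
  have h12' : (4 : ℝ) * l ≤ s' - s := by
    have h13 : 4 * l + s ≤ s' := by omega
    have h14 : (4 : ℝ) * l + s ≤ s' := by exact_mod_cast h13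
    linarith
  have h15 : b / 2 * ((s' : ℝ) - s) ≤ b * (((i2 * l : ℕ) : ℝ) - ((i1 * l : ℕ) : ℝ)) := by
    have h16 : (((s' : ℝ) - s) / 2) ≤ ((i2 * l : ℕ) : ℝ) - ((i1 * l : ℕ) : ℝ) := by linarith
    have h17 := mul_le_mul_of_nonneg_left h16 hb
    linarith
  linarith

/-- **(P) SELECTION.** -/
theorem sel {eps theta K D R iota kap : ℝ} (heps : 0 < eps) (hK : 0 < K) (hD : 0 ≤ D) (hR : 0 ≤ R)
    (hiota : 0 < iota) (hkap : 0 < kap) (hth0 : 0 ≤ theta) (hth : theta * R ≤ eps / 4) (h0 : ℕ) :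
    ∃ S0 M1 : ℕ, ∃ Kg : ℝ, 0 < Kg ∧ ∀ S : ℕ, S0 ≤ S → ∀ g pv d : ℕ → ℝ,
      (∀ s < S, 0 ≤ g (s + 1) - g s) →
      (∀ s < S, 0 ≤ pv (s + 1) - pv s ∧ pv (s + 1) - pv s ≤ D) →
      (∀ s < S, 0 ≤ d (s + 1) - d s ∧ d (s + 1) - d s ≤ g (s + 1) - g s) →
      (∀ s < S, K ≤ g (s + 1) - g s → d (s + 1) - d s ≤ theta * (g (s + 1) - g s)) →
      g S - g 0 ≤ R * S → eps * S ≤ d S - d 0 →
      ∃ s0 M : ℕ, h0 ≤ M ∧ 1 ≤ M ∧ M ≤ M1 ∧ s0 + M ≤ S ∧ ∃ lg lv : ℝ,
        0 ≤ lg ∧ lg ≤ Kg ∧ 0 ≤ lv ∧ lv ≤ D ∧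
        (∀ s, s ≤ M → |g (s0 + s) - g s0 - lg * s| ≤ iota * M ∧
          |pv (s0 + s) - pv s0 - lv * s| ≤ iota * M) ∧
        (∀ s s', s ≤ s' → s' ≤ M → kap * M ≤ (s' : ℝ) - s →
          eps / 16 * ((s' : ℝ) - s) ≤ d (s0 + s') - d (s0 + s)) := by
  obtain ⟨R', hR'⟩ : ∃ R' : ℝ, R' = 2 * R + D + K := ⟨_, rfl⟩
  have hR'0 : 0 ≤ R' := by rw [hR']; positivity
  obtain ⟨Kg, hKg⟩ : ∃ Kg : ℝ, Kg = 8 * K * (Fintype.card (Fin 3) : ℝ) * R' / (eps / 2) + 1 :=
    ⟨_, rfl⟩
  have hKg0 : 0 < Kg := by rw [hKg]; positivity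
  obtain ⟨L, hLbig⟩ := exists_nat_gt (max (max 2 (h0 : ℝ)) (max (2 * Kg / iota) (4 / kap)))
  have hL2 : (2 : ℝ) < L := (le_max_left _ _).trans_lt ((le_max_left _ _).trans_lt hLbig)
  have hLh : (h0 : ℝ) < L := (le_max_right _ _).trans_lt ((le_max_left _ _).trans_lt hLbig)
  have hLK : 2 * Kg / iota < L := (le_max_left _ _).trans_lt ((le_max_right _ _).trans_lt hLbig)
  have hLk : 4 / kap < L := (le_max_right _ _).trans_lt ((le_max_right _ _).trans_lt hLbig)
  have hL1 : 1 ≤ L := by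
    have : (1 : ℝ) < L := by linarith
    exact_mod_cast this.le
  have hLpos : (0 : ℝ) < L := by linarith
  obtain ⟨io1, hio1⟩ : ∃ io1 : ℝ, io1 = min (iota / 2) (eps / 8) := ⟨_, rfl⟩
  have hio10 : 0 < io1 := by rw [hio1]; exact lt_min (by linarith) (by linarith)
  obtain ⟨H, hH⟩ := blk_tree (ι := Fin 3) hL1 (eps := eps / 2) (iota := io1) (K' := K) (R := R')
    (by linarith) hio10 hK.le hR'0 0
  obtain ⟨T, hT⟩ : ∃ T : ℕ, T = L ^ (0 + H) := ⟨_, rfl⟩
  have hT0 : 0 < T := by rw [hT]; exact Nat.pow_pos (by omega)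
  have hTR : (0 : ℝ) < T := by exact_mod_cast hT0
  have hTr : (L : ℝ) ^ (0 + H) = T := by rw [hT]; push_cast; rfl
  obtain ⟨S1, hS1⟩ := exists_nat_gt (max (4 * K * T / eps) (2 * T : ℝ))
  refine ⟨S1, T, Kg, hKg0, ?_⟩
  intro S hS g pv d hg hpv hd hjump hgS hdS
  have hSR : (S1 : ℝ) ≤ S := by exact_mod_cast hS
  have hS4 : 4 * K * T / eps < S := (le_max_left _ _).trans_lt (hS1.trans_le hSR)
  have hS2 : (2 * T : ℝ) < S := (le_max_right _ _).trans_lt (hS1.trans_le hSR)
  have hSpos : (0 : ℝ) < S := by linarith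
  obtain ⟨A, hA⟩ : ∃ A : ℕ, A = S / T := ⟨_, rfl⟩
  have hAT : A * T ≤ S := by rw [hA]; exact Nat.div_mul_le_self S T
  have hAT' : S < A * T + T := by
    rw [hA]
    exact Nat.lt_div_mul_add hT0
  have hATR : ((A : ℝ) * T) ≤ S := by exact_mod_cast hAT
  have hATR' : (S : ℝ) < A * T + T := by exact_mod_cast hAT'
  have hA1 : 1 ≤ A := by
    rw [hA]
    have h2 : 2 * T < S := by exact_mod_cast hS2
    exact (Nat.one_le_div_iff hT0).2 (by omega)
  obtain ⟨fg, hfg⟩ : ∃ f : ℕ → ℝ, ∀ s, f s = if s < S then g (s + 1) - g s else 0 :=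
    ⟨_, fun _ => rfl⟩
  obtain ⟨fv, hfv⟩ : ∃ f : ℕ → ℝ, ∀ s, f s = if s < S then pv (s + 1) - pv s else 0 :=
    ⟨_, fun _ => rfl⟩
  obtain ⟨nu, hnu⟩ : ∃ f : ℕ → ℝ, ∀ s, f s = if s < S ∧ g (s + 1) - g s < K then
    d (s + 1) - d s else 0 := ⟨_, fun _ => rfl⟩
  have hfg0 : ∀ s, 0 ≤ fg s := by
    intro s
    rw [hfg]
    split_ifs with h
    · exact hg s h
    · exact le_rfl
  have hfv0 : ∀ s, 0 ≤ fv s := by
    intro s
    rw [hfv]
    split_ifs with h
    · exact (hpv s h).1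
    · exact le_rfl
  have hfvD : ∀ s, fv s ≤ D := by
    intro s
    rw [hfv]
    split_ifs with h
    · exact (hpv s h).2
    · exact hD
  have hnu0 : ∀ s, 0 ≤ nu s := by
    intro s
    rw [hnu]
    split_ifs with h
    · exact (hd s h.1).1
    · exact le_rfl
  have hnuK : ∀ s, nu s ≤ K := by
    intro s
    rw [hnu]
    split_ifs with h
    · exact ((hd s h.1).2).trans h.2.le
    · exact hK.le
  -- the sums
  have hsum_g : ∑ s ∈ range S, fg s = g S - g 0 := by
    rw [← Finset.sum_range_sub]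
    exact Finset.sum_congr rfl (fun s hs => by rw [hfg, if_pos (Finset.mem_range.1 hs)])
  have hsum_nu : eps * S - theta * (R * S) ≤ ∑ s ∈ range S, nu s := by
    have h1 : ∀ s ∈ range S, (d (s + 1) - d s) - theta * fg s ≤ nu s := by
      intro s hs
      have hsS := Finset.mem_range.1 hs
      rw [hnu, hfg, if_pos hsS]
      by_cases hk : g (s + 1) - g s < K
      · rw [if_pos ⟨hsS, hk⟩]
        have : 0 ≤ theta * (g (s + 1) - g s) := mul_nonneg hth0 (hg s hsS)
        linarith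
      · rw [if_neg (fun h => hk h.2)]
        have := hjump s hsS (not_lt.1 hk)
        linarith
    have h2 := Finset.sum_le_sum h1
    rw [Finset.sum_sub_distrib, Finset.sum_range_sub, ← Finset.mul_sum, hsum_g] at h2
    have h3 : theta * (g S - g 0) ≤ theta * (R * S) := mul_le_mul_of_nonneg_left hgS hth0
    linarith
  have hN : A * L ^ (0 + H) = A * T := by rw [hT]
  have hNr : (A : ℝ) * (L : ℝ) ^ (0 + H) = A * T := by rw [hTr]
  have hsubset : range (A * T) ⊆ range S := Finset.range_mono hAT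
  have hnuN : eps / 2 * (A * T) ≤ ∑ s ∈ range (A * T), nu s := by
    have h1 : ∑ s ∈ range S, nu s - ∑ s ∈ range (A * T), nu s
        = ∑ s ∈ Finset.Ico (A * T) S, nu s := by
      rw [Finset.sum_Ico_eq_sub _ hAT]
    have h2 : ∑ s ∈ Finset.Ico (A * T) S, nu s ≤ K * T := by
      calc ∑ s ∈ Finset.Ico (A * T) S, nu s ≤ ∑ _s ∈ Finset.Ico (A * T) S, K :=
            Finset.sum_le_sum (fun s _ => hnuK s)
        _ = ((S - A * T : ℕ) : ℝ) * K := by
            rw [Finset.sum_const, Nat.card_Ico, nsmul_eq_mul]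
        _ ≤ T * K := by
            apply mul_le_mul_of_nonneg_right _ hK.le
            have : S - A * T ≤ T := by omega
            exact_mod_cast this
        _ = K * T := mul_comm _ _
    have h3 : theta * (R * S) ≤ eps / 4 * S := by
      have := mul_le_mul_of_nonneg_right hth hSpos.le
      linarith
    have h4 : 4 * K * T ≤ S * eps := by
      have := hS4.le
      rwa [div_le_iff₀ heps] at this
    have h5 : eps / 2 * (A * T) ≤ eps / 2 * S := mul_le_mul_of_nonneg_left hATR (by linarith)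
    linarith
  have hfN : ∀ j : Fin 3, ∑ s ∈ range (A * T), (![nu, fg, fv] j) s ≤ R' * (A * T) := by
    have hATpos : (0 : ℝ) ≤ A * T := by positivity
    have hSAT : (S : ℝ) ≤ 2 * (A * T) := by linarith
    intro j
    fin_cases j
    · show ∑ s ∈ range (A * T), nu s ≤ R' * (A * T)
      calc ∑ s ∈ range (A * T), nu s ≤ ∑ _s ∈ range (A * T), K :=
            Finset.sum_le_sum (fun s _ => hnuK s)
        _ = (A * T) * K := by
            rw [Finset.sum_const, Finset.card_range, nsmul_eq_mul]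
            push_cast
            ring
        _ ≤ R' * (A * T) := by
            rw [mul_comm]
            apply mul_le_mul_of_nonneg_right _ hATpos
            rw [hR']
            linarith
    · show ∑ s ∈ range (A * T), fg s ≤ R' * (A * T)
      calc ∑ s ∈ range (A * T), fg s ≤ ∑ s ∈ range S, fg s :=
            Finset.sum_le_sum_of_subset_of_nonneg hsubset (fun s _ _ => hfg0 s)
        _ = g S - g 0 := hsum_g
        _ ≤ R * S := hgS
        _ ≤ R * (2 * (A * T)) := mul_le_mul_of_nonneg_left hSAT hR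
        _ = (2 * R) * (A * T) := by ring
        _ ≤ R' * (A * T) := by
            apply mul_le_mul_of_nonneg_right _ hATpos
            rw [hR']
            linarith
    · show ∑ s ∈ range (A * T), fv s ≤ R' * (A * T)
      calc ∑ s ∈ range (A * T), fv s ≤ ∑ _s ∈ range (A * T), D :=
            Finset.sum_le_sum (fun s _ => hfvD s)
        _ = (A * T) * D := by
            rw [Finset.sum_const, Finset.card_range, nsmul_eq_mul]
            push_cast
            ring
        _ ≤ R' * (A * T) := by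
            rw [mul_comm]
            apply mul_le_mul_of_nonneg_right _ hATpos
            rw [hR']
            linarith
  have hf0 : ∀ (j : Fin 3) s, 0 ≤ (![nu, fg, fv] j) s := by
    intro j s
    fin_cases j
    · exact hnu0 s
    · exact hfg0 s
    · exact hfv0 s
  obtain ⟨k, hkH, a, haA, hnua, hja⟩ := hH A hA1 nu ![nu, fg, fv] hnu0 hnuK hf0
    (by rw [hN, hNr]; exact hnuN) (by rw [hN, hNr]; exact hfN)
  rw [← hKg] at hja
  simp only [Nat.zero_add] at hnua hja
  obtain ⟨M, hM⟩ : ∃ M : ℕ, M = L ^ (k + 1) := ⟨_, rfl⟩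
  have hMr : (L : ℝ) ^ (k + 1) = M := by rw [hM]; push_cast; rfl
  obtain ⟨s0, hs0⟩ : ∃ s0 : ℕ, s0 = a * L ^ (k + 1) := ⟨_, rfl⟩
  have hM1 : 1 ≤ M := by rw [hM]; exact Nat.pow_pos (by omega)
  have hML : L ≤ M := by
    rw [hM, pow_succ]
    exact Nat.le_mul_of_pos_left L (Nat.pow_pos (by omega))
  have hMT : M ≤ T := by
    rw [hM, hT]
    exact Nat.pow_le_pow_right (by omega) (by omega)
  have hsM : s0 + M ≤ A * T := by
    have h1 : a + 1 ≤ A * L ^ (H - (k + 1)) := haA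
    have h2 : (a + 1) * L ^ (k + 1) ≤ A * L ^ (H - (k + 1)) * L ^ (k + 1) :=
      Nat.mul_le_mul_right _ h1
    have h3 : A * L ^ (H - (k + 1)) * L ^ (k + 1) = A * T := by
      rw [mul_assoc, ← pow_add, hT]
      congr 2
      omega
    rw [h3, Nat.succ_mul] at h2
    rw [hs0, hM]
    exact h2
  have hsMS : s0 + M ≤ S := hsM.trans hAT
  have hMpos : (0 : ℝ) < M := by exact_mod_cast hM1
  -- the child length
  have hlM : (L : ℝ) ^ k * L = M := by rw [← pow_succ, hMr]
  have hpre : ∀ (G f : ℕ → ℝ), (∀ s, s < S → f s = G (s + 1) - G s) → ∀ t, t ≤ M →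
      ∑ u ∈ range t, f (s0 + u) = G (s0 + t) - G s0 := by
    intro G f hGf t ht
    have h1 : ∑ u ∈ range t, f (s0 + u) = ∑ u ∈ range t, (G (s0 + (u + 1)) - G (s0 + u)) := by
      apply Finset.sum_congr rfl
      intro u hu
      have hu' := Finset.mem_range.1 hu
      rw [hGf (s0 + u) (by omega)]
      rfl
    rw [h1, Finset.sum_range_sub (fun u => G (s0 + u))]
    rfl
  refine ⟨s0, M, ?_, hM1, hMT, hsMS, av L fg (k + 1) a, av L fv (k + 1) a, av_nonneg hfg0 _ _,
    (hja 1).1, av_nonneg hfv0 _ _, av_le hL1 hfvD _ _, ?_, ?_⟩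
  · have : h0 < L := by exact_mod_cast hLh
    omega
  · intro t ht
    have hbound : io1 * (L : ℝ) ^ (k + 1) + Kg * (L : ℝ) ^ k ≤ iota * M := by
      rw [hMr]
      have h1 : io1 ≤ iota / 2 := by rw [hio1]; exact min_le_left _ _
      have h2 : Kg ≤ iota / 2 * L := by
        have := hLK.le
        rw [div_le_iff₀ hiota] at this
        linarith
      have hLk0 : (0 : ℝ) ≤ (L : ℝ) ^ k := by positivity
      have h3 : Kg * (L : ℝ) ^ k ≤ iota / 2 * M := by
        calc Kg * (L : ℝ) ^ k ≤ (iota / 2 * L) * (L : ℝ) ^ k :=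
              mul_le_mul_of_nonneg_right h2 hLk0
          _ = iota / 2 * ((L : ℝ) ^ k * L) := by ring
          _ = iota / 2 * M := by rw [hlM]
      have h4 : io1 * M ≤ iota / 2 * M := mul_le_mul_of_nonneg_right h1 hMpos.le
      linarith
    have htM : t ≤ L ^ (k + 1) := by rw [← hM]; exact ht
    constructor
    · have h1 := near_lin hL1 hfg0 (h := k) (a := a) (hja 1).1 hio10.le (hja 1).2 htM
      rw [← hs0, hpre g fg (fun s hs => by rw [hfg, if_pos hs]) t ht] at h1
      exact h1.trans hbound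
    · have h1 := near_lin hL1 hfv0 (h := k) (a := a) (hja 2).1 hio10.le (hja 2).2 htM
      rw [← hs0, hpre pv fv (fun s hs => by rw [hfv, if_pos hs]) t ht] at h1
      exact h1.trans hbound
  · intro s s' hss hs' hlong
    have hch : ∀ i < L, eps / 8 ≤ av L nu k (a * L + i) := by
      intro i hi
      have h1 := (abs_lt.1 ((hja 0).2 i hi)).1
      have h2 : io1 ≤ eps / 8 := by rw [hio1]; exact min_le_right _ _
      have h3 : (![nu, fg, fv] 0 : ℕ → ℝ) = nu := rfl
      rw [h3] at h1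
      linarith
    have hlong' : 4 * L ^ k ≤ s' - s := by
      have h1 : (4 : ℝ) * (L : ℝ) ^ k ≤ kap * M := by
        have h2 : 4 ≤ kap * L := by
          have := hLk.le
          rw [div_le_iff₀ hkap] at this
          linarith
        have hLk0 : (0 : ℝ) ≤ (L : ℝ) ^ k := by positivity
        calc (4 : ℝ) * (L : ℝ) ^ k ≤ (kap * L) * (L : ℝ) ^ k :=
              mul_le_mul_of_nonneg_right h2 hLk0
          _ = kap * ((L : ℝ) ^ k * L) := by ring
          _ = kap * M := by rw [hlM]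
      have h3 : (4 : ℝ) * (L : ℝ) ^ k ≤ (s' : ℝ) - s := h1.trans hlong
      have h4 : ((4 * L ^ k + s : ℕ) : ℝ) ≤ (s' : ℝ) := by
        push_cast
        linarith
      have h5 : 4 * L ^ k + s ≤ s' := by exact_mod_cast h4
      omega
    have h1 := dens_sub hL1 hnu0 (h := k) (a := a) (b := eps / 8) (by linarith) hch hss
      (by rw [← hM]; exact hs') hlong'
    rw [← hs0] at h1
    have h2 : ∑ u ∈ range s', nu (s0 + u) - ∑ u ∈ range s, nu (s0 + u)
        ≤ d (s0 + s') - d (s0 + s) := by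
      rw [← Finset.sum_Ico_eq_sub _ hss]
      have h3 : ∀ u ∈ Finset.Ico s s', nu (s0 + u) ≤ d (s0 + (u + 1)) - d (s0 + u) := by
        intro u hu
        have hu' := Finset.mem_Ico.1 hu
        have huS : s0 + u < S := by omega
        rw [hnu]
        split_ifs with h
        · exact le_rfl
        · exact (hd (s0 + u) huS).1
      have h4 := Finset.sum_le_sum h3
      have h5 : ∑ u ∈ Finset.Ico s s', (d (s0 + (u + 1)) - d (s0 + u)) = d (s0 + s') - d (s0 + s) := by
        rw [Finset.sum_Ico_eq_sub _ hss, Finset.sum_range_sub (fun u => d (s0 + u)),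
          Finset.sum_range_sub (fun u => d (s0 + u))]
        ring
      rw [h5] at h4
      exact h4
    have h6 : eps / 8 / 2 = eps / 16 := by ring
    rw [h6] at h1
    linarith

end Agent.H15.R2P
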